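import Pool.Agent.H11.EM.Stm

/-!
# Project EM (helper11), job EM-CORE: the main upper bound

Author: helper29, after the model `Q91/EL/Core.lean` (one field).
-/

set_option autoImplicit false

namespace Pool.Agent.H29.EM

open NumberField IsDedekindDomain Finset
open Pool.Agent.Q51.EL (Abv N1 pr S_M1 S_RAM S_SUMS)
open Pool.Agent.H11.EM

section

variable {K : Type} [Fintype K] (L : K → Type) [∀ k, Field (L k)] [∀ k, NumberField (L k)]

lemma tau_nonneg (l : ℕ) : 0 ≤ tau L l := by
  unfold tau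
  split_ifs
  · exact le_rfl
  · positivity
  · exact zero_le_one

lemma four_mul_le {n : ℕ} (hn : 5 ≤ n) : (n : ℝ) * 4 / 2 ^ n ≤ 5 / 8 := by
  rw [div_le_iff₀ (by positivity)]
  induction n, hn using Nat.le_induction with
  | base => norm_num
  | succ n hn ih =>
    rw [pow_succ]
    push_cast
    have : (1:ℝ) ≤ 2 ^ n := one_le_pow₀ (by norm_num)
    have h5 : (5:ℝ) ≤ n := by exact_mod_cast hn
    nlinarith

/-- the bounds for `NN - tau` -/
lemma tau_le (hn : 5 ≤ dg L) (l : ℕ) :
    tau L l ≤ (if 1 ≤ NN L l then 1 else 0) -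
      3 / 8 * (if NN L l = dg L then 1 else 0) := by
  unfold tau
  rcases Nat.eq_zero_or_pos (NN L l) with h0 | h0
  · have h2 : ¬ NN L l = dg L := by omega
    have h3 : ¬ 1 ≤ NN L l := by omega
    rw [if_pos h0, if_neg h3, if_neg h2]; norm_num
  · have h3 : 1 ≤ NN L l := h0
    have h4 : ¬ NN L l = 0 := by omega
    rw [if_neg h4, if_pos h3]
    by_cases h2 : NN L l = dg L
    · rw [if_pos h2, if_pos h2]
      have := four_mul_le hn
      linarith
    · rw [if_neg h2, if_neg h2]; norm_num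

end

open Classical in
theorem core (h1 : S_SIEVE) (h2 : S_SUMS) (h3 : S_CNT) (h4 : S_RAM) (h5 : S_M1) (h6 : S_M2) :
    S_CORE := by
  intro K _ _ L _ _ hn B hB
  set n := dg L with hndef
  obtain ⟨Cs, hCs, hsieve⟩ := h1 K L
  have h4' := fun k => (h4 (L k)).1
  choose Bk hBk hramk using h4'
  have hN1le : ∀ l : ℕ, l.Prime → NN L l ≤ n := fun l hl =>
    Finset.sum_le_sum fun k _ => (h4 (L k)).2 l hl
  obtain ⟨B0, hB0def⟩ : ∃ B0 : ℕ, B0 = ∏ k, Bk k := ⟨_, rfl⟩
  have hB0 : B0 ≠ 0 := by
    rw [hB0def]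
    exact Finset.prod_ne_zero_iff.2 fun k _ => hBk k
  have hram : ∀ l : ℕ, l.Prime → ¬ l ∣ B0 → ∀ k, Squarefree (Ideal.span {(l : 𝓞 (L k))}) := by
    intro l hl hlB k
    refine hramk k l hl fun h => hlB ?_
    rw [hB0def]
    exact h.trans (Finset.dvd_prod_of_mem Bk (Finset.mem_univ k))
  have hn0 : (0:ℝ) < n := by exact_mod_cast (by omega : 0 < n)
  have hn5 : (5:ℝ) ≤ n := by exact_mod_cast hn
  obtain ⟨c2, hc2, hsums⟩ := h2 n hn0
  obtain ⟨c6, C6, hc6, hsplit⟩ := h6 K L
  obtain ⟨κ, hκdef⟩ : ∃ κ : ℝ, κ = Fintype.card K := ⟨_, rfl⟩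
  have hκ : 1 ≤ κ := by
    rw [hκdef]
    exact_mod_cast Fintype.card_pos
  have hκ0 : 0 < κ := by linarith
  have h5' := fun k => h5 (L k) (c6 / (8 * κ)) (by positivity)
  choose C5k hmertk using h5'
  obtain ⟨C5, hC5def⟩ : ∃ C5 : ℝ, C5 = ∑ k, C5k k := ⟨_, rfl⟩
  have hmert : ∀ Y : ℝ, 3 ≤ Y → (κ - c6 / 8) * Real.log (Real.log Y) - C5 ≤
      ∑ l ∈ pr Y, (NN L l : ℝ) / l := by
    intro Y hY
    have e1 : ∑ l ∈ pr Y, (NN L l : ℝ) / l = ∑ k, ∑ l ∈ pr Y, (N1 (L k) l : ℝ) / l := by
      rw [Finset.sum_comm]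
      refine Finset.sum_congr rfl fun l _ => ?_
      unfold NN
      rw [Nat.cast_sum, Finset.sum_div]
    rw [e1]
    refine le_trans (le_of_eq ?_) (Finset.sum_le_sum fun k _ => hmertk k Y hY)
    rw [Finset.sum_sub_distrib, ← hC5def, Finset.sum_const, Finset.card_univ, nsmul_eq_mul,
      ← hκdef]
    have e2 : κ * ((1 - c6 / (8 * κ)) * Real.log (Real.log Y)) =
        (κ - c6 / 8) * Real.log (Real.log Y) := by
      field_simp
    rw [e2]
  have hsumm : Summable (fun n : ℕ => 1 / (n : ℝ) ^ 2) :=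
    Real.summable_one_div_nat_pow.2 (by norm_num)
  set K2 : ℝ := ∑' n : ℕ, 1 / (n : ℝ) ^ 2 with hK2
  set B' : ℕ := B * B0 with hB'
  have hB'0 : B' ≠ 0 := mul_ne_zero hB hB0
  set c : ℝ := c6 / 4 with hc
  have hc0 : 0 < c := by positivity
  -- the constant
  set R : ℝ := (κ + c) * Real.log 2 + C5 + 3 / 8 * C6 + n * (n ^ 2 + B' + 1) + n ^ 2 * K2 with hR
  have hlog9 : 0 < Real.log 9 := Real.log_pos (by norm_num)
  refine ⟨c, Cs / c2 * Real.exp R + Cs * Real.log 9 ^ (κ + c), hc0, by positivity, ?_⟩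
  intro T hT Z Y hZ hZY
  have hZ0 : 0 < Z := by linarith
  have hlogZ1 : 1 ≤ Real.log Z := by
    rw [Real.le_log_iff_exp_le hZ0]
    have := Real.exp_one_lt_d9; linarith
  have hlogZ : 0 < Real.log Z := by linarith
  have hGN0 : 0 ≤ GN L Z := by unfold GN; exact Finset.sum_nonneg fun q _ => by positivity
  obtain ⟨V, hVdef⟩ : ∃ V : ℝ, V = ∏ k, Y k ^ Module.finrank ℚ (L k) := ⟨_, rfl⟩
  have hV0 : 0 < V := by
    rw [hVdef]
    exact Finset.prod_pos fun k _ => pow_pos (lt_of_lt_of_le hZ0 (hZY k)) _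
  set M : ℝ := (((box Y T).ncard : ℕ) : ℝ) with hM
  have hM0 : 0 ≤ M := Nat.cast_nonneg _
  have htriv := hsieve Z Y ∅ T (fun _ => 1) (by linarith) hZY (by simp) (by simp)
  refine ⟨htriv.1, ?_⟩
  rw [← hκdef, ← hVdef]
  have hlp : 0 < Real.log Z ^ (-(κ + c)) := Real.rpow_pos_of_pos hlogZ _
  have hconst0 : 0 ≤ Cs / c2 * Real.exp R := by positivity
  have hconst1 : 0 ≤ Cs * Real.log 9 ^ (κ + c) := by positivity
  rcases lt_or_ge Z 9 with hZ9 | hZ9
  · -- small Z
    have h7 : M ≤ Cs * V := by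
      have := htriv.2
      rw [Finset.powerset_empty] at this
      have h8 : ({∅} : Finset (Finset ℕ)).filter
          (fun D => (((∏ t ∈ D, t : ℕ) : ℝ)) ^ 2 ≤ Z) = {∅} := by
        rw [Finset.filter_eq_self]
        intro D hD
        rw [mem_singleton] at hD
        subst hD
        simp; linarith
      rw [h8, ← hVdef] at this
      simpa using this
    have h8 : 1 ≤ Real.log 9 ^ (κ + c) * Real.log Z ^ (-(κ + c)) := by
      rw [Real.rpow_neg hlogZ.le, ← div_eq_mul_inv, one_le_div (by positivity)]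
      exact Real.rpow_le_rpow hlogZ.le (Real.log_le_log hZ0 hZ9.le) (by linarith)
    have h9 : 1 ≤ Real.exp (GN L Z) := Real.one_le_exp hGN0
    calc M ≤ Cs * V := h7
      _ ≤ Cs * V * (Real.exp (GN L Z) * (Real.log 9 ^ (κ + c) * Real.log Z ^ (-(κ + c)))) := by
          refine le_mul_of_one_le_right (by positivity) ?_
          nlinarith
      _ = Cs * Real.log 9 ^ (κ + c) * V * Real.exp (GN L Z) * Real.log Z ^ (-(κ + c)) := by
          ring
      _ ≤ _ := by
          refine mul_le_mul_of_nonneg_right (mul_le_mul_of_nonneg_right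
            (mul_le_mul_of_nonneg_right ?_ hV0.le) (Real.exp_pos _).le) hlp.le
          linarith
  · -- large Z
    set W : ℝ := √Z with hW
    have hW3 : 3 ≤ W := by rw [hW]; apply Real.le_sqrt_of_sq_le; linarith
    have hWsq : W ^ 2 = Z := Real.sq_sqrt hZ0.le
    have hW0 : 0 < W := by linarith
    set Q : ℕ := ⌊W⌋₊ with hQ
    have hQ1 : 1 ≤ Q := Nat.le_floor (by push_cast; linarith)
    set P : Finset ℕ := (pr W).filter (fun l => n ^ 2 < l ∧ ¬ l ∣ B' ∧ l ≠ 2 ∧ 2 ≤ NN L l) with hP
    set η : ℕ → ℝ := fun l => (NN L l - tau L l) / l - (n:ℝ) ^ 2 / (l:ℝ) ^ 2 with hη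
    have hprW : ∀ l ∈ pr W, l.Prime ∧ l ≤ Q := by
      intro l hl
      unfold pr at hl
      rw [mem_filter, mem_Icc] at hl
      exact ⟨hl.2, hl.1.2⟩
    have hPpr : ∀ l ∈ P, l.Prime := fun l hl => (hprW l (mem_filter.1 hl).1).1
    have hPQ : ∀ l ∈ P, l ≤ Q := fun l hl => (hprW l (mem_filter.1 hl).1).2
    have hηprop : ∀ l ∈ P, 0 < η l ∧ η l ≤ n / l := by
      intro l hl
      have hl0 : (0:ℝ) < l := by exact_mod_cast (hPpr l hl).pos
      have hlpr := hPpr l hl
      rw [hP, mem_filter] at hl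
      obtain ⟨-, hl1, hl2, hl3, hl4⟩ := hl
      have hl1' : (n:ℝ) ^ 2 < l := by exact_mod_cast hl1
      have hN : (2:ℝ) ≤ NN L l := by exact_mod_cast hl4
      have hNn : (NN L l : ℝ) ≤ n := by exact_mod_cast hN1le l hlpr
      have ht := tau_le L hn l
      have ht0 := tau_nonneg L l
      rw [if_pos (by omega)] at ht
      have hone : (1:ℝ) ≤ NN L l - tau L l := by
        split_ifs at ht <;> linarith
      constructor
      · simp only [hη]
        have h10 : (n:ℝ) ^ 2 / (l:ℝ) ^ 2 < 1 / l := by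
          rw [div_lt_div_iff₀ (by positivity) hl0]; nlinarith
        have h11 : 1 / (l:ℝ) ≤ (NN L l - tau L l) / l := by gcongr
        linarith
      · simp only [hη]
        have h10 : 0 ≤ (n:ℝ) ^ 2 / (l:ℝ) ^ 2 := by positivity
        have h11 : (NN L l - tau L l) / l ≤ (n:ℝ) / l := by
          apply div_le_div_of_nonneg_right _ hl0.le; linarith
        linarith
    have hs := hsieve Z Y P T η (by linarith) hZY hPpr (fun l hl => ⟨(hηprop l hl).1, by
      have hl' := hl
      rw [hP, mem_filter] at hl'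
      obtain ⟨-, hl1, hl2, hl3, hl4⟩ := hl'
      have hlB : ¬ l ∣ B := fun h => hl2 (h.mul_right _)
      have hlB0 : ¬ l ∣ B0 := fun h => hl2 (h.mul_left _)
      obtain ⟨t1, t2⟩ := hT l (hPpr l hl) hlB
      have h12 := h3 K L l (hPpr l hl) hl3 (hram l (hPpr l hl) hlB0) T t1 t2
      refine h12.trans (le_of_eq ?_)
      simp only [hη, ← hndef]; ring⟩)
    have hss := hsums Q P η hQ1 hPpr hPQ (fun l hl => ⟨(hηprop l hl).1.le, (hηprop l hl).2⟩)
    have hfilter : P.powerset.filter (fun D => ∏ t ∈ D, t ≤ Q) =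
        P.powerset.filter (fun D => (((∏ t ∈ D, t : ℕ) : ℝ)) ^ 2 ≤ Z) := by
      refine Finset.filter_congr fun D _ => ?_
      rw [hQ, Nat.le_floor_iff hW0.le]
      constructor
      · intro h
        rw [← hWsq]
        exact pow_le_pow_left₀ (Nat.cast_nonneg _) h 2
      · intro h
        rw [← hWsq] at h
        exact le_of_sq_le_sq h hW0.le
    rw [hfilter] at hss
    -- lower bound of the sum of η
    have hPsub : P ⊆ pr W := Finset.filter_subset _ _
    have hlow : (κ + c) * Real.log (Real.log Z) - GN L Z - R ≤ ∑ l ∈ P, η l := by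
      -- from P to pr W
      have e1 : ∑ l ∈ P, η l = ∑ l ∈ P, (NN L l - tau L l) / (l:ℝ) -
          ∑ l ∈ P, (n:ℝ) ^ 2 / (l:ℝ) ^ 2 := by
        rw [← Finset.sum_sub_distrib]
      have e2 : ∑ l ∈ P, (n:ℝ) ^ 2 / (l:ℝ) ^ 2 ≤ n ^ 2 * K2 := by
        have : ∑ l ∈ P, (n:ℝ) ^ 2 / (l:ℝ) ^ 2 = n ^ 2 * ∑ l ∈ P, 1 / (l:ℝ) ^ 2 := by
          rw [Finset.mul_sum]; exact Finset.sum_congr rfl fun l _ => by ring
        rw [this]
        exact mul_le_mul_of_nonneg_left (hsumm.sum_le_tsum _ fun n _ => by positivity)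
          (by positivity)
      have e3 : ∑ l ∈ pr W, (NN L l - tau L l) / (l:ℝ) ≤
          ∑ l ∈ P, (NN L l - tau L l) / (l:ℝ) + n * (n ^ 2 + B' + 1) := by
        rw [← Finset.sum_sdiff hPsub, add_comm]
        refine add_le_add le_rfl ?_
        have e4 : ∀ l ∈ pr W \ P, (NN L l - tau L l) / (l:ℝ) ≤
            if l ∈ Icc 1 (n ^ 2) ∪ Icc 1 B' ∪ {2} then (n:ℝ) / 2 else 0 := by
          intro l hl
          rw [mem_sdiff] at hl
          obtain ⟨hl1, hl2⟩ := hl
          obtain ⟨hlp, -⟩ := hprW l hl1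
          have hl0 : (0:ℝ) < l := by exact_mod_cast hlp.pos
          have hl2' : (2:ℝ) ≤ l := by exact_mod_cast hlp.two_le
          have hNn : (NN L l : ℝ) ≤ n := by exact_mod_cast hN1le l hlp
          have ht0 := tau_nonneg L l
          have hgen : (NN L l - tau L l) / (l:ℝ) ≤ (n:ℝ) / 2 := by
            rw [div_le_div_iff₀ hl0 (by norm_num)]
            nlinarith
          split_ifs with hmem
          · exact hgen
          · simp only [mem_union, mem_Icc, mem_singleton, not_or, not_and, not_le] at hmem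
            obtain ⟨⟨m1, m2⟩, m3⟩ := hmem
            have m1' := m1 hlp.one_lt.le
            have m2' := m2 hlp.one_lt.le
            have hdiv : ¬ l ∣ B' := fun h =>
              absurd (Nat.le_of_dvd (Nat.pos_of_ne_zero hB'0) h) (not_le.2 m2')
            have hN2 : NN L l < 2 := by
              by_contra hcon
              exact hl2 (mem_filter.2 ⟨hl1, m1', hdiv, m3, not_lt.1 hcon⟩)
            have hz : (NN L l : ℝ) - tau L l = 0 := by
              unfold tau
              have : NN L l = 0 ∨ NN L l = 1 := by omega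
              rcases this with h | h
              · rw [if_pos h, h]; simp
              · rw [if_neg (by omega), if_neg (by omega), h]; simp
            rw [hz, zero_div]
        refine (Finset.sum_le_sum e4).trans ?_
        rw [← Finset.sum_filter]
        rw [Finset.sum_const, nsmul_eq_mul]
        have hcard : ((pr W \ P).filter (fun l => l ∈ Icc 1 (n ^ 2) ∪ Icc 1 B' ∪ {2})).card ≤
            n ^ 2 + B' + 1 := by
          refine (Finset.card_le_card (t := Icc 1 (n ^ 2) ∪ Icc 1 B' ∪ {2})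
            fun l hl => (mem_filter.1 hl).2).trans ?_
          refine (Finset.card_union_le _ _).trans ?_
          have := Finset.card_union_le (Icc 1 (n ^ 2)) (Icc 1 B')
          simp only [Nat.card_Icc, Finset.card_singleton] at this ⊢
          omega
        have hcard' : (((pr W \ P).filter
            (fun l => l ∈ Icc 1 (n ^ 2) ∪ Icc 1 B' ∪ {2})).card : ℝ) ≤ n ^ 2 + B' + 1 := by
          exact_mod_cast hcard
        have hpos : (0:ℝ) ≤ (n:ℝ) ^ 2 + B' + 1 := by positivity
        nlinarith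
      -- tau
      have e5 : ∑ l ∈ pr W, (NN L l : ℝ) / l - ∑ l ∈ (pr W).filter (fun l => 1 ≤ NN L l),
          (1:ℝ) / l + 3 / 8 * ∑ l ∈ (pr W).filter (fun l => NN L l = n), (1:ℝ) / l ≤
          ∑ l ∈ pr W, (NN L l - tau L l) / (l:ℝ) := by
        rw [Finset.sum_filter, Finset.sum_filter, Finset.mul_sum, ← Finset.sum_sub_distrib,
          ← Finset.sum_add_distrib]
        refine Finset.sum_le_sum fun l hl => ?_
        have hl0 : (0:ℝ) < l := by exact_mod_cast (hprW l hl).1.pos
        have ht := tau_le L hn l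
        have e6 : (NN L l : ℝ) / l - (if 1 ≤ NN L l then (1:ℝ) / l else 0) +
            3 / 8 * (if NN L l = n then (1:ℝ) / l else 0) =
            (NN L l - ((if 1 ≤ NN L l then (1:ℝ) else 0) -
              3 / 8 * (if NN L l = n then (1:ℝ) else 0))) / l := by
          split_ifs <;> ring
        rw [e6]
        apply div_le_div_of_nonneg_right _ hl0.le
        linarith
      have e7 := hmert W hW3
      have e8 := hsplit W hW3
      have e9 : ∑ l ∈ (pr W).filter (fun l => 1 ≤ NN L l), (1:ℝ) / l ≤ GN L Z := by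
        unfold GN
        refine Finset.sum_le_sum_of_subset_of_nonneg ?_ fun _ _ _ => by positivity
        refine Finset.filter_subset_filter _ ?_
        unfold pr
        refine Finset.filter_subset_filter _ (Finset.Icc_subset_Icc_right (Nat.floor_le_floor ?_))
        nlinarith
      have e10 : Real.log (Real.log W) = Real.log (Real.log Z) - Real.log 2 := by
        have : Real.log W = Real.log Z / 2 := by
          rw [hW, Real.log_sqrt hZ0.le]
        rw [this, Real.log_div hlogZ.ne' (by norm_num)]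
      rw [e10] at e7 e8
      have e11 : (κ + c) * (Real.log (Real.log Z) - Real.log 2) =
          (κ - c6 / 8) * (Real.log (Real.log Z) - Real.log 2) +
          3 / 8 * (c6 * (Real.log (Real.log Z) - Real.log 2)) := by rw [hc]; ring
      rw [e1, hR]
      have e12 : (κ + c) * Real.log (Real.log Z) = (κ + c) * (Real.log (Real.log Z) - Real.log 2) +
        (κ + c) * Real.log 2 := by ring
      rw [e12, e11]
      linarith
    -- conclusion
    have hexp : Real.exp (∑ l ∈ P, η l) * c2 * M ≤ Cs * V := by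
      rw [← hVdef] at hs
      refine le_trans ?_ hs.2
      rw [mul_comm M]
      refine mul_le_mul_of_nonneg_right ?_ hM0
      rw [mul_comm]; exact hss
    have hexp2 : Real.exp ((κ + c) * Real.log (Real.log Z) - GN L Z - R) ≤
      Real.exp (∑ l ∈ P, η l) := Real.exp_le_exp.2 hlow
    have hrp : Real.log Z ^ (-(κ + c)) = Real.exp (-((κ + c) * Real.log (Real.log Z))) := by
      rw [Real.rpow_def_of_pos hlogZ]; congr 1; ring
    have h13 : Real.exp ((κ + c) * Real.log (Real.log Z) - GN L Z - R) * c2 * M ≤ Cs * V :=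
      (mul_le_mul_of_nonneg_right (mul_le_mul_of_nonneg_right hexp2 hc2.le) hM0).trans hexp
    have h14 : M ≤ Cs / c2 * Real.exp R * V * Real.exp (GN L Z) * Real.log Z ^ (-(κ + c)) := by
      rw [hrp]
      set X1 := (κ + c) * Real.log (Real.log Z)
      have h15 : Cs / c2 * Real.exp R * V * Real.exp (GN L Z) * Real.exp (-X1) =
          (Cs * V) / (Real.exp (X1 - GN L Z - R) * c2) := by
        rw [Real.exp_sub, Real.exp_sub, Real.exp_neg]
        field_simp
      rw [h15, le_div_iff₀ (by positivity)]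
      linarith
    refine h14.trans ?_
    refine mul_le_mul_of_nonneg_right (mul_le_mul_of_nonneg_right
      (mul_le_mul_of_nonneg_right ?_ hV0.le) (Real.exp_pos _).le) hlp.le
    linarith

end Pool.Agent.H29.EM
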