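import Pool.Agent.H11.EM.Stm
import Pool.Graph.R_pool_sql_team_seeded_3997aac3.Q51.EL.LSV
import Pool.Graph.R_pool_sql_team_seeded_3997aac3.Q91.EL.Sums

/-!
# Project EM (helper11), job EM-UB: integers composed of the primes of a set

Author: helper29.
-/

set_option autoImplicit false

namespace Pool.Agent.H29.EM

open Finset
open Pool.Agent.Q51.EL (pr S_LSV S_SUMS)
open Pool.Agent.H11.EM

open Classical in
theorem ub_of (hlsv : S_LSV) (hsums : S_SUMS) : S_UB := by
  intro B hB
  obtain ⟨c, hc, hc2⟩ := hsums 1 one_pos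
  obtain ⟨C1, hC1⟩ := Pool.Agent.Erdos456.Mert.mertens_inv
  have hlog16 : 0 < Real.log 16 := Real.log_pos (by norm_num)
  refine ⟨12 / c * Real.exp (Real.log 4 + C1 + B) + Real.log 16, by positivity, ?_⟩
  intro P X hX
  have hX0 : 0 < X := by linarith
  have hlogX1 : 1 ≤ Real.log X := by
    rw [Real.le_log_iff_exp_le hX0]
    have := Real.exp_one_lt_d9; linarith
  have hlogX : 0 < Real.log X := by linarith
  obtain ⟨S, hS⟩ : ∃ S : ℝ, S = ∑ q ∈ (pr X).filter (fun q => q ∈ P), (1 : ℝ) / q := ⟨_, rfl⟩
  rw [← hS]
  have hS0 : 0 ≤ S := by rw [hS]; exact Finset.sum_nonneg fun q _ => by positivity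
  obtain ⟨N, hN⟩ : ∃ N : ℕ, N = ⌊X⌋₊ := ⟨_, rfl⟩
  have hNX : (N : ℝ) ≤ X := by rw [hN]; exact Nat.floor_le hX0.le
  have hXN : X < N + 1 := by rw [hN]; exact Nat.lt_floor_add_one X
  have hN3 : 3 ≤ N := by rw [hN]; exact Nat.le_floor (by exact_mod_cast hX)
  -- the set as a finset
  set M : Finset ℕ := (Icc 1 N).filter (fun m => ∀ q : ℕ, q.Prime → q ∣ m → q ∣ B ∨ q ∈ P) with hM
  have hset : {m : ℕ | 1 ≤ m ∧ (m : ℝ) ≤ X ∧ ∀ q : ℕ, q.Prime → q ∣ m → q ∣ B ∨ q ∈ P} =
      (M : Set ℕ) := by
    ext m
    rw [hM, Finset.coe_filter, Set.mem_ofPred_eq, Set.mem_ofPred_eq, mem_Icc, and_assoc, hN,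
      Nat.le_floor_iff hX0.le]
  rw [hset, Set.ncard_coe_finset]
  have hMN : (M.card : ℝ) ≤ X := by
    have h1 : M.card ≤ N := by
      refine (Finset.card_filter_le _ _).trans ?_
      rw [Nat.card_Icc]; omega
    exact le_trans (by exact_mod_cast h1) hNX
  have hconst0 : 0 ≤ 12 / c * Real.exp (Real.log 4 + C1 + B) := by positivity
  have hexpS : 1 ≤ Real.exp S := Real.one_le_exp hS0
  rcases lt_or_ge X 16 with hX16 | hX16
  · calc (M.card : ℝ) ≤ X := hMN
      _ ≤ Real.log 16 * X / Real.log X := by
          rw [le_div_iff₀ hlogX, mul_comm]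
          exact mul_le_mul_of_nonneg_right (Real.log_le_log hX0 hX16.le) hX0.le
      _ ≤ Real.log 16 * X / Real.log X * Real.exp S := by
          exact le_mul_of_one_le_right (by positivity) hexpS
      _ ≤ _ := by
          refine mul_le_mul_of_nonneg_right ?_ (Real.exp_pos _).le
          refine div_le_div_of_nonneg_right ?_ hlogX.le
          exact mul_le_mul_of_nonneg_right (by linarith) hX0.le
  · -- the sieve
    obtain ⟨Q, hQ⟩ : ∃ Q : ℕ, Q = Nat.sqrt N := ⟨_, rfl⟩
    have hN16 : 16 ≤ N := by rw [hN]; exact Nat.le_floor (by exact_mod_cast hX16)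
    have hQ4 : 4 ≤ Q := by rw [hQ, Nat.le_sqrt]; omega
    have hQN : Q ^ 2 ≤ N := by rw [hQ, pow_two]; exact Nat.sqrt_le N
    have hNQ : N + 1 ≤ Q ^ 4 := by
      have h1 : N < (Q + 1) * (Q + 1) := by rw [hQ]; exact Nat.lt_succ_sqrt N
      have h2 : Q + 1 ≤ Q ^ 2 := by nlinarith
      calc N + 1 ≤ (Q + 1) * (Q + 1) := h1
        _ ≤ Q ^ 2 * Q ^ 2 := Nat.mul_le_mul h2 h2
        _ = Q ^ 4 := by ring
    set P' : Finset ℕ := ((Icc 1 Q).filter Nat.Prime).filter (fun t => ¬ t ∣ B ∧ t ∉ P) with hP'
    have hP'pr : ∀ t ∈ P', t.Prime := fun t ht => (mem_filter.1 (mem_filter.1 ht).1).2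
    have hP'Q : ∀ t ∈ P', t ≤ Q := fun t ht =>
      (mem_Icc.1 (mem_filter.1 (mem_filter.1 ht).1).1).2
    let η : ℕ → ℝ := fun t => 1 / t
    let F : ℕ ↪ (Fin 1 → ℕ) := ⟨fun m _ => m, fun a b h => congrFun h 0⟩
    let Om : (t : ℕ) → Finset (Fin 1 → ZMod t) := fun t =>
      if h : t = 0 then ∅ else
        haveI : NeZero t := ⟨h⟩
        (Finset.univ : Finset (Fin 1 → ZMod t)).filter (fun x => x 0 ≠ 0)
    have hOm : ∀ t ∈ P', ((Om t).card : ℝ) ≤ (1 - η t) * (t : ℝ) ^ 1 := by
      intro t ht
      have htp := hP'pr t ht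
      have ht0 : t ≠ 0 := htp.ne_zero
      haveI : NeZero t := ⟨ht0⟩
      have h1 : (Om t).card ≤ t - 1 := by
        simp only [Om, dif_neg ht0]
        have h2 : (Finset.univ.filter (fun x : Fin 1 → ZMod t => x 0 ≠ 0)).card ≤
            (Finset.univ.erase (0 : ZMod t)).card := by
          refine Finset.card_le_card_of_injOn (fun x => x 0) ?_ ?_
          · intro x hx
            simp only [Finset.coe_filter, Set.mem_ofPred_eq, Finset.mem_univ, true_and] at hx
            simp only [Finset.coe_erase, Finset.coe_univ, Set.mem_sdiff, Set.mem_univ,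
              Set.mem_singleton_iff, true_and]
            exact hx
          · intro x _ y _ hxy
            funext i
            have : i = 0 := Subsingleton.elim _ _
            rw [this]
            exact hxy
        rw [Finset.card_erase_of_mem (Finset.mem_univ _), Finset.card_univ, ZMod.card] at h2
        exact h2
      have ht1 : (1:ℝ) ≤ t := by exact_mod_cast htp.one_le
      have h3 : ((Om t).card : ℝ) ≤ (t : ℝ) - 1 := by
        have : ((Om t).card : ℝ) ≤ ((t - 1 : ℕ) : ℝ) := by exact_mod_cast h1
        rwa [Nat.cast_sub htp.one_le, Nat.cast_one] at this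
      refine h3.trans (le_of_eq ?_)
      simp only [η]
      field_simp
    have hlv := hlsv 1 N Q (fun _ => 0) P' (M.map F) Om η (by omega) hQN hP'pr
      (by
        intro z hz i
        rw [Finset.mem_map] at hz
        obtain ⟨m, hm, rfl⟩ := hz
        rw [hM, mem_filter, mem_Icc] at hm
        simp only [F, Function.Embedding.coeFn_mk, mem_Ioc]
        omega)
      (fun t ht => by
        have : (0:ℝ) < t := by exact_mod_cast (hP'pr t ht).pos
        simp only [η]; positivity)
      hOm
      (by
        intro z hz t ht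
        rw [Finset.mem_map] at hz
        obtain ⟨m, hm, rfl⟩ := hz
        have htp := hP'pr t ht
        have ht0 : t ≠ 0 := htp.ne_zero
        haveI : NeZero t := ⟨ht0⟩
        simp only [Om, dif_neg ht0]
        refine Finset.mem_filter.2 ⟨Finset.mem_univ _, ?_⟩
        simp only [F, Function.Embedding.coeFn_mk]
        intro h
        have h2 : t ∣ m := (ZMod.natCast_eq_zero_iff _ _).1 h
        rw [hM, mem_filter] at hm
        rw [hP', mem_filter] at ht
        rcases hm.2 t htp h2 with h3 | h3
        · exact ht.2.1 h3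
        · exact ht.2.2 h3)
    rw [Finset.card_map, pow_one] at hlv
    have hss := hc2 Q P' η (by omega) hP'pr hP'Q (fun t ht => by
      have : (0:ℝ) < t := by exact_mod_cast (hP'pr t ht).pos
      exact ⟨by simp only [η]; positivity, le_rfl⟩)
    -- the sum over the sieving primes
    have hlow : Real.log (Real.log X) - Real.log 4 - C1 - B - S ≤ ∑ t ∈ P', η t := by
      have h1 := (abs_le.1 (hC1 Q (by omega))).1
      have h2 : Real.log X ≤ 4 * Real.log Q := by
        have h3 : X ≤ (Q : ℝ) ^ 4 := by
          have : ((N + 1 : ℕ) : ℝ) ≤ ((Q ^ 4 : ℕ) : ℝ) := by exact_mod_cast hNQ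
          push_cast at this
          linarith
        have h4 := Real.log_le_log hX0 h3
        rw [Real.log_pow] at h4
        exact_mod_cast h4
      have h3 : Real.log (Real.log X) - Real.log 4 ≤ Real.log (Real.log Q) := by
        rw [← Real.log_div hlogX.ne' (by norm_num)]
        exact Real.log_le_log (by positivity) (by linarith)
      have h4 : ∑ p ∈ (Icc 1 Q).filter Nat.Prime, (1:ℝ) / p ≤ ∑ t ∈ P', η t + (B + S) := by
        have h5 : ∀ p ∈ (Icc 1 Q).filter Nat.Prime, (1:ℝ) / p ≤
            (if ¬ p ∣ B ∧ p ∉ P then (1:ℝ) / p else 0) +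
            ((if p ∣ B then (1:ℝ) / p else 0) + (if p ∈ P then (1:ℝ) / p else 0)) := by
          intro p _
          have hp0 : (0:ℝ) ≤ 1 / p := by positivity
          by_cases h6 : p ∣ B
          · rw [if_neg (by tauto), if_pos h6]
            split_ifs <;> linarith
          · by_cases h7 : p ∈ P
            · rw [if_neg (by tauto), if_neg h6, if_pos h7]
              linarith
            · rw [if_pos ⟨h6, h7⟩, if_neg h6, if_neg h7]
              linarith
        refine (Finset.sum_le_sum h5).trans ?_
        rw [Finset.sum_add_distrib, Finset.sum_add_distrib, ← Finset.sum_filter,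
          ← Finset.sum_filter, ← Finset.sum_filter]
        refine add_le_add (le_of_eq rfl) (add_le_add ?_ ?_)
        · calc ∑ p ∈ ((Icc 1 Q).filter Nat.Prime).filter (fun p => p ∣ B), (1:ℝ) / p
              ≤ ∑ p ∈ ((Icc 1 Q).filter Nat.Prime).filter (fun p => p ∣ B), (1:ℝ) := by
                refine Finset.sum_le_sum fun p hp => ?_
                have hpp := (mem_filter.1 (mem_filter.1 hp).1).2
                have : (1:ℝ) ≤ p := by exact_mod_cast hpp.one_le
                rw [div_le_one (by linarith)]
                exact this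
            _ = ((((Icc 1 Q).filter Nat.Prime).filter (fun p => p ∣ B)).card : ℝ) := by simp
            _ ≤ B := by
                have : (((Icc 1 Q).filter Nat.Prime).filter (fun p => p ∣ B)).card ≤ B := by
                  calc (((Icc 1 Q).filter Nat.Prime).filter (fun p => p ∣ B)).card
                      ≤ (Icc 1 B).card := by
                        refine Finset.card_le_card fun p hp => ?_
                        have hpp := (mem_filter.1 (mem_filter.1 hp).1).2
                        rw [mem_Icc]
                        exact ⟨hpp.one_le, Nat.le_of_dvd (Nat.pos_of_ne_zero hB)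
                          (mem_filter.1 hp).2⟩
                    _ = B := by rw [Nat.card_Icc]; omega
                exact_mod_cast this
        · rw [hS]
          refine Finset.sum_le_sum_of_subset_of_nonneg ?_ fun _ _ _ => by positivity
          refine Finset.filter_subset_filter _ ?_
          unfold pr
          refine Finset.filter_subset_filter _ (Finset.Icc_subset_Icc_right ?_)
          rw [← hN]
          nlinarith
      linarith
    have h13 : Real.exp (Real.log (Real.log X) - Real.log 4 - C1 - B - S) * c * M.card ≤ 12 * X := by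
      calc Real.exp (Real.log (Real.log X) - Real.log 4 - C1 - B - S) * c * M.card
          ≤ Real.exp (∑ t ∈ P', η t) * c * M.card := by
            have := Real.exp_le_exp.2 hlow
            gcongr
        _ = M.card * (c * Real.exp (∑ t ∈ P', η t)) := by ring
        _ ≤ M.card * ∑ D ∈ P'.powerset.filter (fun D => ∏ t ∈ D, t ≤ Q), ∏ t ∈ D, η t := by
            gcongr
        _ ≤ 12 * N := hlv
        _ ≤ 12 * X := by linarith
    have h14 : (M.card : ℝ) ≤ 12 / c * Real.exp (Real.log 4 + C1 + B) * X / Real.log X *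
        Real.exp S := by
      have h15 : 12 / c * Real.exp (Real.log 4 + C1 + B) * X / Real.log X * Real.exp S =
          12 * X / (Real.exp (Real.log (Real.log X) - Real.log 4 - C1 - B - S) * c) := by
        have h16 : Real.exp (Real.log (Real.log X) - Real.log 4 - C1 - B - S) =
            Real.log X / (Real.exp (Real.log 4 + C1 + B) * Real.exp S) := by
          rw [← Real.exp_add, show Real.log (Real.log X) - Real.log 4 - C1 - B - S =
            Real.log (Real.log X) - (Real.log 4 + C1 + B + S) by ring, Real.exp_sub,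
            Real.exp_log hlogX]
        rw [h16]
        field_simp
      rw [h15, le_div_iff₀ (by positivity)]
      linarith
    refine h14.trans ?_
    refine mul_le_mul_of_nonneg_right ?_ (Real.exp_pos _).le
    refine div_le_div_of_nonneg_right ?_ hlogX.le
    exact mul_le_mul_of_nonneg_right (by linarith) hX0.le

theorem ub : S_UB := ub_of Pool.Agent.Q51.EL.lsv Pool.Agent.Q91.EL.sums

end Pool.Agent.H29.EM
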